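import Pool.Agent.X172.GR.Stm

/-! Part S_COM of project GR. -/

namespace Pool.Agent.X187.GR

open Pool.Agent.X172.GR

theorem Rd_get {T : ℕ → Fin 6} : ∀ {w : List Ltr} {i j : ℕ}, Rd T i w → j < w.length →
    (w[j]?).map Prod.fst = some (T (i + j))
  | [], _, _, _, hj => by simp at hj
  | a :: w, i, 0, h, _ => by
      simp only [List.getElem?_cons_zero, Option.map_some, add_zero]
      exact congrArg some h.1
  | a :: w, i, j + 1, h, hj => by
      rw [List.getElem?_cons_succ, Rd_get h.2 (by simpa using hj)]
      congr 2; omega

theorem Rd_app {T : ℕ → Fin 6} : ∀ {x y : List Ltr} {i : ℕ}, Rd T i (x ++ y) →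
    Rd T i x ∧ Rd T (i + x.length) y
  | [], _, _, h => ⟨trivial, by simpa using h⟩
  | a :: x, y, i, h => by
      have h2 := Rd_app (x := x) (y := y) h.2
      refine ⟨⟨h.1, h2.1⟩, ?_⟩
      have e : i + (a :: x).length = i + 1 + x.length := by simp; omega
      rw [e]; exact h2.2

theorem readable_pre {T : ℕ → Fin 6} {x w : List Ltr} (h : Readable T w) (hx : x <+: w) :
    Readable T x := by
  obtain ⟨i, hi⟩ := h
  obtain ⟨y, rfl⟩ := hx
  exact ⟨i, (Rd_app hi).1⟩

theorem readable_suf {T : ℕ → Fin 6} {x w : List Ltr} (h : Readable T w) (hx : x <:+ w) :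
    Readable T x := by
  obtain ⟨i, hi⟩ := h
  obtain ⟨y, rfl⟩ := hx
  exact ⟨_, (Rd_app hi).2⟩

theorem no5 {n : ℕ} {T : ℕ → Fin 6} (hT : Ty n T) : ∀ {w : List Ltr} {i : ℕ}, Rd T i w →
    ∀ a ∈ w, a.1 ≠ 5
  | [], _, _, a, ha => by simp at ha
  | b :: w, i, h, a, ha => by
      rcases List.mem_cons.1 ha with rfl | ha
      · rw [h.1]; exact hT.ne5 i
      · exact no5 hT h.2 a ha

theorem uniq {n : ℕ} {T : ℕ → Fin 6} (hn : 4 ≤ n) (hT : Ty n T) {x y : ℕ}
    (h : ∀ j, j < n → T (x + j) = T (y + j)) : x % n = y % n := by
  have hn0 : 0 < n := by omega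
  have hx : x % n < n := Nat.mod_lt _ hn0
  have h1 : n ∣ x + (n - 1 - x % n) + 1 := by
    have e : x + (n - 1 - x % n) + 1 = n * (x / n) + n := by
      have := Nat.div_add_mod x n
      omega
    rw [e]; exact ⟨x / n + 1, by ring⟩
  have h2 := h (n - 1 - x % n) (by omega)
  rw [(hT.hash _).2 h1] at h2
  have h3 := (hT.hash _).1 h2.symm
  have h4 : x + (n - 1 - x % n) + 1 ≡ y + (n - 1 - x % n) + 1 [MOD n] :=
    ((Nat.modEq_zero_iff_dvd.2 h1).trans (Nat.modEq_zero_iff_dvd.2 h3).symm)
  have h5 : x + ((n - 1 - x % n) + 1) ≡ y + ((n - 1 - x % n) + 1) [MOD n] := by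
    simpa [add_assoc] using h4
  exact Nat.ModEq.add_right_cancel' _ h5

theorem core {n : ℕ} {T : ℕ → Fin 6} (hn : 4 ≤ n) (hT : Ty n T) {s t : List Ltr} (hs : s ≠ [])
    {is i : ℕ} (hrs : Rd T is s) (hrt : Rd T i t) (hle : s.length ≤ t.length)
    (P : ∀ j, j < min n (t.length + 1) → (s ++ t)[j]? = (t ++ s)[j]?)
    (Q : ∀ j, s.length + t.length ≤ j + min n (t.length + 1) → (s ++ t)[j]? = (t ++ s)[j]?) :
    s = t ∨ (n ≤ s.length ∧ (∀ j, j < n → s[j]? = t[j]?) ∧ s.length % n = t.length % n ∧
      ∀ j, j < n → s[s.length - n + j]? = t[t.length - n + j]?) := by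
  have hp : 0 < s.length := List.length_pos_of_ne_nil hs
  have tt : ∀ l m, l < t.length → m < t.length → t[l]? = t[m]? → T (i + l) = T (i + m) := by
    intro l m hl hm h
    have h1 := Rd_get hrt hl
    have h2 := Rd_get hrt hm
    rw [h, h2] at h1
    exact (Option.some.inj h1).symm
  by_cases hnt : n ≤ t.length
  · have hmin : min n (t.length + 1) = n := by omega
    rw [hmin] at P Q
    by_cases hns : n ≤ s.length
    · right
      have f1 : ∀ j, j < n → s[j]? = t[j]? := by
        intro j hj
        have := P j hj
        rwa [List.getElem?_append_left (by omega), List.getElem?_append_left (by omega)] at this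
      have f2 : ∀ j, j < n → s[s.length - n + j]? = t[t.length - n + j]? := by
        intro j hj
        have := Q (s.length + t.length - n + j) (by omega)
        rw [List.getElem?_append_right (by omega), List.getElem?_append_right (by omega)] at this
        have e1 : s.length + t.length - n + j - s.length = t.length - n + j := by omega
        have e2 : s.length + t.length - n + j - t.length = s.length - n + j := by omega
        rw [e1, e2] at this
        exact this.symm
      refine ⟨hns, f1, ?_, f2⟩
      have g1 : is % n = i % n := by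
        refine uniq hn hT fun j hj => ?_
        have h1 := Rd_get hrs (j := j) (by omega)
        have h2 := Rd_get hrt (j := j) (by omega)
        rw [f1 j hj, h2] at h1
        exact (Option.some.inj h1).symm
      have g2 : (is + (s.length - n)) % n = (i + (t.length - n)) % n := by
        refine uniq hn hT fun j hj => ?_
        have h1 := Rd_get hrs (j := s.length - n + j) (by omega)
        have h2 := Rd_get hrt (j := t.length - n + j) (by omega)
        rw [f2 j hj, h2] at h1
        have := (Option.some.inj h1).symm
        rw [add_assoc, add_assoc]; exact this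
      have g3 : is + (s.length - n) ≡ i + (t.length - n) [MOD n] := g2
      have g4 : is ≡ i [MOD n] := g1
      have g5 : s.length - n ≡ t.length - n [MOD n] := Nat.ModEq.add_left_cancel g4 g3
      have g6 : s.length - n + n ≡ t.length - n + n [MOD n] := g5.add_right n
      rwa [Nat.sub_add_cancel hns, Nat.sub_add_cancel hnt] at g6
    · exfalso
      push Not at hns
      obtain ⟨j, hj, hne⟩ := hT.sqf (i + s.length) (n - s.length) (by omega)
        (fun h => by have := Nat.le_of_dvd (by omega) h; omega)
      apply hne
      have h1 := P (s.length + j) (by omega)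
      rw [List.getElem?_append_right (by omega), List.getElem?_append_left (by omega),
        Nat.add_sub_cancel_left] at h1
      have h2 := tt j (s.length + j) (by omega) (by omega) h1
      have e1 : i + s.length + (n - s.length) + j = i + j + n := by omega
      rw [e1, hT.per, h2]
      congr 1; omega
  · push Not at hnt
    have hmin : min n (t.length + 1) = t.length + 1 := by omega
    rw [hmin] at P Q
    have AB : s ++ t = t ++ s := by
      apply List.ext_getElem?
      intro j
      by_cases hj : j < t.length + 1
      · exact P j hj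
      · exact Q j (by omega)
    left
    rcases hle.eq_or_lt with heq | hlt
    · exact (List.append_inj AB heq).1
    · exfalso
      have F0 : ∀ l, l < s.length → s[l]? = t[l]? := by
        intro l hl
        have h := congrArg (fun w : List Ltr => w[l]?) AB
        rwa [List.getElem?_append_left (by omega), List.getElem?_append_left (by omega)] at h
      by_cases hq : t.length - s.length ≤ s.length
      · obtain ⟨j, hj, hne⟩ := hT.sqf i (t.length - s.length) (by omega)
          (fun h => by have := Nat.le_of_dvd (by omega) h; omega)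
        apply hne
        have h := congrArg (fun w : List Ltr => w[t.length + j]?) AB
        rw [List.getElem?_append_right (by omega), List.getElem?_append_right (by omega),
          Nat.add_sub_cancel_left, F0 j (by omega)] at h
        have h2 := tt _ _ (by omega) (by omega) h
        rw [← h2]
        congr 1; omega
      · obtain ⟨j, hj, hne⟩ := hT.sqf i s.length hp
          (fun h => by have := Nat.le_of_dvd (by omega) h; omega)
        apply hne
        have h := congrArg (fun w : List Ltr => w[s.length + j]?) AB
        rw [List.getElem?_append_right (by omega), List.getElem?_append_left (by omega),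
          Nat.add_sub_cancel_left] at h
        have h2 := tt _ _ (by omega) (by omega) h
        rw [h2]
        congr 1; omega

theorem getP {n : ℕ} {T : ℕ → Fin 6} {s t : List Ltr} (hrt : Readable T t)
    (hrs : Readable T s)
    (h : LE n T (s ++ t ++ [(5, false)]) (t ++ s ++ [(5, false)])) :
    (∀ j, j < min n (max s.length t.length + 1) → (s ++ t)[j]? = (t ++ s)[j]?) := by
  intro j hj
  rcases h with h | ⟨p, h1, h2, h3⟩
  · rw [List.append_cancel_right h]
  · have hlen : min n (max s.length t.length + 1) ≤ p.length := by
      rcases h3 with h3 | h3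
      · by_contra hc
        rcases le_total s.length t.length with hl | hl
        · apply h3
          refine readable_pre hrt (List.prefix_of_prefix_length_le h2 ?_ (by omega))
          rw [List.append_assoc]; exact List.prefix_append _ _
        · apply h3
          refine readable_pre hrs (List.prefix_of_prefix_length_le h1 ?_ (by omega))
          rw [List.append_assoc]; exact List.prefix_append _ _
      · omega
    obtain ⟨x, hx⟩ := h1
    obtain ⟨y, hy⟩ := h2
    have l1 := congrArg List.length hx
    have l2 := congrArg List.length hy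
    simp only [List.length_append, List.length_cons, List.length_nil] at l1 l2
    have hjp : j < p.length := by omega
    have a1 : (s ++ t ++ [((5, false) : Ltr)])[j]? = p[j]? := by
      rw [← hx, List.getElem?_append_left hjp]
    have a2 : (t ++ s ++ [((5, false) : Ltr)])[j]? = p[j]? := by
      rw [← hy, List.getElem?_append_left hjp]
    by_cases hjL : j < s.length + t.length
    · rw [List.getElem?_append_left (by simp; omega)] at a1 a2
      rw [a1, a2]
    · rw [List.getElem?_eq_none (by simp; omega), List.getElem?_eq_none (by simp; omega)]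

theorem getQ {n : ℕ} {T : ℕ → Fin 6} (hT : Ty n T) {s t : List Ltr} (hrt : Readable T t)
    (hrs : Readable T s)
    (h : RE n T ((5, false) :: (s ++ t)) ((5, false) :: (t ++ s))) :
    ∀ j, s.length + t.length ≤ j + min n (max s.length t.length + 1) →
      (s ++ t)[j]? = (t ++ s)[j]? := by
  intro j hj
  have key : ∀ q : List Ltr, q <:+ ((5, false) :: (s ++ t)) → q <:+ ((5, false) :: (t ++ s)) →
      min n (max s.length t.length + 1) ≤ q.length → (s ++ t)[j]? = (t ++ s)[j]? := by
    rintro q ⟨x, hx⟩ ⟨y, hy⟩ hq
    have l1 := congrArg List.length hx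
    have l2 := congrArg List.length hy
    simp only [List.length_append, List.length_cons] at l1 l2
    have a1 : (((5, false) : Ltr) :: (s ++ t))[j + 1]? = q[j + 1 - x.length]? := by
      rw [← hx, List.getElem?_append_right (by omega)]
    have a2 : (((5, false) : Ltr) :: (t ++ s))[j + 1]? = q[j + 1 - y.length]? := by
      rw [← hy, List.getElem?_append_right (by omega)]
    rw [List.getElem?_cons_succ] at a1 a2
    have e : x.length = y.length := by omega
    rw [a1, a2, e]
  rcases h with h | ⟨q, h1, h2, h3⟩ | ⟨h, m, z, z', h1, h2, h3⟩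
  · rw [List.cons.inj h |>.2]
  · refine key q h1 h2 ?_
    by_contra hc
    rcases le_total s.length t.length with hl | hl
    · exact h3 (readable_suf hrt (List.suffix_of_suffix_length_le h1
        ((List.suffix_append _ _).trans (List.suffix_cons _ _)) (by omega)))
    · exact h3 (readable_suf hrs (List.suffix_of_suffix_length_le h2
        ((List.suffix_append _ _).trans (List.suffix_cons _ _)) (by omega)))
  · have hz : z = z' := by
      rcases h3 with h3 | ⟨h3, _⟩
      · exact h3
      · exfalso
        obtain ⟨v, _, _, _, _, _, h4⟩ := h1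
        rcases h4 with ⟨h4, _⟩ | ⟨a, y, h4, h5, _⟩
        · rw [h4] at h3; exact absurd h3 (by simp)
        · rw [h4] at h3
          have ha : a = (5, true) := Option.some.inj h3
          have hm : a ∈ ((5, false) : Ltr) :: (s ++ t) := by rw [h5]; simp
          rcases List.mem_cons.1 hm with h6 | h6
          · rw [ha] at h6; exact absurd h6 (by decide)
          · obtain ⟨i1, r1⟩ := hrs
            obtain ⟨i2, r2⟩ := hrt
            rcases List.mem_append.1 h6 with h6 | h6
            · exact no5 hT r1 a h6 (by rw [ha])
            · exact no5 hT r2 a h6 (by rw [ha])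
    subst hz
    obtain ⟨v, _, _, _, hz1, hz2, h4⟩ := h1
    obtain ⟨v', _, _, _, hz1', _, h4'⟩ := h2
    refine key z ?_ ?_ (by omega)
    · rcases h4 with ⟨_, h4⟩ | ⟨a, y, _, h5, _⟩
      · rw [h4]; exact hz1
      · rw [h5]
        exact hz1.trans ((List.suffix_cons _ _).trans (List.suffix_append _ _))
    · rcases h4' with ⟨_, h4⟩ | ⟨a, y, _, h5, _⟩
      · rw [h4]; exact hz1'
      · rw [h5]
        exact hz1'.trans ((List.suffix_cons _ _).trans (List.suffix_append _ _))

/-- symmetric conclusion -/
theorem fin {n : ℕ} {T : ℕ → Fin 6} {s t : List Ltr} (hrs : Readable T s) (hrt : Readable T t)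
    (h1 : n ≤ s.length) (h1' : n ≤ t.length) (h2 : ∀ j, j < n → s[j]? = t[j]?)
    (h3 : s.length % n = t.length % n)
    (h4 : ∀ j, j < n → s[s.length - n + j]? = t[t.length - n + j]?) : E n T s t := by
  constructor
  · right
    refine ⟨s.take n, List.take_prefix _ _, ?_, Or.inr (by simp [h1])⟩
    have e : s.take n = t.take n := by
      apply List.ext_getElem?
      intro j
      by_cases hj : j < n
      · rw [List.getElem?_take_of_lt hj, List.getElem?_take_of_lt hj, h2 j hj]
      · rw [List.getElem?_eq_none (by simp; omega), List.getElem?_eq_none (by simp; omega)]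
    rw [e]; exact List.take_prefix _ _
  · right; right
    have e : s.drop (s.length - n) = t.drop (t.length - n) := by
      apply List.ext_getElem?
      intro j
      rw [List.getElem?_drop, List.getElem?_drop]
      by_cases hj : j < n
      · exact h4 j hj
      · rw [List.getElem?_eq_none (by omega), List.getElem?_eq_none (by omega)]
    refine ⟨none, s.length % n, s.drop (s.length - n), t.drop (t.length - n),
      ⟨s, hrs, h1, rfl, List.drop_suffix _ _, by simp; omega, Or.inl ⟨rfl, rfl⟩⟩,
      ⟨t, hrt, h1', h3.symm, List.drop_suffix _ _, by simp; omega, Or.inl ⟨rfl, rfl⟩⟩, Or.inl e⟩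

theorem t_COM : S_COM := by
  intro n T hn hT s t hs ht hrs hrt hL hR
  have P := getP hrt hrs hL
  have Q := getQ hT hrt hrs hR
  obtain ⟨is, hs'⟩ := id hrs
  obtain ⟨i, ht'⟩ := id hrt
  rcases le_total s.length t.length with hl | hl
  · rw [max_eq_right hl] at P Q
    rcases core hn hT hs hs' ht' hl P Q with h | ⟨h1, h2, h3, h4⟩
    · subst h; exact ⟨Or.inl rfl, Or.inl rfl⟩
    · exact fin hrs hrt h1 (h1.trans hl) h2 h3 h4
  · rw [max_eq_left hl] at P Q
    rcases core hn hT ht ht' hs' hl (fun j hj => (P j hj).symm)
      (fun j hj => (Q j (by omega)).symm) with h | ⟨h1, h2, h3, h4⟩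
    · subst h; exact ⟨Or.inl rfl, Or.inl rfl⟩
    · exact fin hrs hrt (h1.trans hl) h1 (fun j hj => (h2 j hj).symm) h3.symm
        (fun j hj => (h4 j hj).symm)

end Pool.Agent.X187.GR
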